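import Pool.Agent.KS6_63.AddSq2.Data

set_option autoImplicit false

/-!
# Additive squares: exponentially many words over {0, ..., 43}
-/

namespace Pool.Agent.Results.MP_191414_co.ManyWords

open Finset Pool.Agent.KS6_63.AddSq2

/-- The infinite word `w` over the integers avoids additive squares: two adjacent blocks of the
same positive length never have equal sums. -/
def AvoidsSquares (w : ℕ → ℕ) : Prop :=
  ∀ i n : ℕ, 0 < n → ∑ k ∈ range n, w (i + k) ≠ ∑ k ∈ range n, w (i + n + k)

/-- The words of length `n` over `{0, ..., M}` without additive squares: no factor `v v'` with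
`v` nonempty, `|v| = |v'|` and `∑ v = ∑ v'`. -/
def squareFree (M n : ℕ) : Set (List ℕ) :=
  {u | u.length = n ∧ (∀ a ∈ u, a ≤ M) ∧ ∀ p v v' s : List ℕ, u = p ++ v ++ v' ++ s →
    v ≠ [] → v.length = v'.length → v.sum ≠ v'.sum}

theorem avoids_of (w : ℕ → ℕ) (h : ∀ n k, 0 < k → ¬ IsSq (fun i => (w i : ℤ)) n k) :
    AvoidsSquares w := by
  intro i n hn h1
  apply h i n hn
  unfold IsSq
  have e1 := S_add (fun t => (w t : ℤ)) i n
  have e2 := S_add (fun t => (w t : ℤ)) (i + n) n
  rw [show i + n + n = i + 2 * n by ring] at e2
  have h' : ∑ k ∈ range n, (w (i + k) : ℤ) = ∑ k ∈ range n, (w (i + n + k) : ℤ) := by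
    exact_mod_cast h1
  linarith

theorem sum_block (w : ℕ → ℕ) (n : ℕ) (p v s : List ℕ)
    (h : (List.range n).map w = p ++ v ++ s) :
    v.sum = ∑ k ∈ range v.length, w (p.length + k) := by
  have hv : v = (List.range v.length).map (fun k => w (p.length + k)) := by
    apply List.ext_getElem
    · simp
    · intro i h1 h2
      have h3 : p.length + i < ((List.range n).map w).length := by
        rw [h]; simp; omega
      have h4 : ((List.range n).map w)[p.length + i] = v[i] := by
        simp only [h]
        rw [List.getElem_append_left (by simp; omega), List.getElem_append_right (by omega)]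
        simp
      rw [← h4]
      simp
  conv_lhs => rw [hv]
  rw [Finset.sum_range]
  rw [← List.sum_ofFn]
  congr 1
  apply List.ext_getElem
  · simp
  · intro i h1 h2
    simp

theorem prefix_mem (w : ℕ → ℕ) (M n : ℕ) (h : AvoidsSquares w) (hM : ∀ i, w i ≤ M) :
    (List.range n).map w ∈ squareFree M n := by
  refine ⟨by simp, ?_, ?_⟩
  · intro a ha
    obtain ⟨i, -, rfl⟩ := List.mem_map.1 ha
    exact hM i
  · intro p v v' s hu hv hl hs
    have h1 := sum_block w n p v (v' ++ s) (by rw [hu]; simp)
    have h2 := sum_block w n (p ++ v) v' s (by rw [hu])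
    have h3 : 0 < v.length := List.length_pos_iff.2 hv
    apply h p.length v.length h3
    rw [← h1, hs, h2, ← hl, List.length_append]

theorem squareFree_finite (M n : ℕ) : (squareFree M n).Finite := by
  refine Set.Finite.subset (Set.finite_range fun f : Fin n → Fin (M + 1) =>
    List.ofFn fun i => (f i : ℕ)) ?_
  rintro u ⟨h1, h2, -⟩
  subst h1
  refine ⟨fun i => ⟨u[i], Nat.lt_succ_of_le (h2 _ (List.getElem_mem _))⟩, ?_⟩
  simp [List.ofFn_getElem]

/-- the word with the choices `ε` -/
def word (ε : ℕ → Bool) : ℕ → ℕ :=
  W 37 27 43 Data.zp Data.zs Data.t0 Data.t1 3 ε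

theorem word_avoids (ε : ℕ → Bool) : AvoidsSquares (word ε) :=
  avoids_of _ fun n k hk => W_sq Data.dat ε n k hk

theorem word_le (ε : ℕ → Bool) (i : ℕ) : word ε i ≤ 43 := W_le Data.dat ε i

theorem word_inj (ε ε' : ℕ → Bool) (q : ℕ)
    (h : ∀ i < 1369 * (q + 1), word ε i = word ε' i) : ε q = ε' q :=
  W_inj Data.dat ε ε' q fun i hi => h i (by omega)

/-- **Additive squares are avoidable over `{0, 1, ..., 43}`**: there are continuum many infinite
words over this alphabet without additive squares, and the number of words of length `n` over it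
without additive squares is at least `2 ^ ⌊n / 1369⌋`, for every `n`. -/
theorem result :
    Cardinal.mk {w : ℕ → ℕ | (∀ i, w i ≤ 43) ∧ AvoidsSquares w} = Cardinal.continuum ∧
    ∀ n : ℕ, 2 ^ (n / 1369) ≤ (squareFree 43 n).ncard := by
  constructor
  · apply le_antisymm
    · refine (Cardinal.mk_set_le _).trans ?_
      simp
    · have h1 : Cardinal.mk (ℕ → Bool) = Cardinal.continuum := by simp
      rw [← h1]
      refine Cardinal.mk_le_of_injective
        (f := fun ε => (⟨word ε, word_le ε, word_avoids ε⟩ : {w : ℕ → ℕ | (∀ i, w i ≤ 43) ∧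
          AvoidsSquares w})) ?_
      intro ε ε' h
      have h2 : word ε = word ε' := congrArg Subtype.val h
      funext q
      exact word_inj ε ε' q fun i _ => congrFun h2 i
  · intro n
    set k := n / 1369 with hk
    let ext : (Fin k → Bool) → ℕ → Bool := fun e q => if h : q < k then e ⟨q, h⟩ else false
    let f : (Fin k → Bool) → List ℕ := fun e => (List.range n).map (word (ext e))
    have hf : Function.Injective f := by
      intro e e' h
      have h1 : ∀ i < n, word (ext e) i = word (ext e') i := by
        intro i hi
        have h2 := congrArg (fun l => l[i]?) h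
        simp only [f, List.getElem?_map, List.getElem?_range hi, Option.map_some,
          Option.some.injEq] at h2
        exact h2
      funext ⟨q, hq⟩
      have h3 := word_inj (ext e) (ext e') q fun i hi => h1 i (by omega)
      simpa [ext, hq] using h3
    have h1 : (Set.range f).ncard = 2 ^ k := by
      rw [← Set.image_univ, Set.ncard_image_of_injective _ hf, Set.ncard_univ]
      simp
    rw [← h1]
    refine Set.ncard_le_ncard ?_ (squareFree_finite 43 n)
    rintro _ ⟨e, rfl⟩
    exact prefix_mem _ 43 n (word_avoids _) (word_le _)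

end Pool.Agent.Results.MP_191414_co.ManyWords
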